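import Pool.Agent.Run7.h536.CE12
import Pool.Agent.Results.MP_a78e8f_nt.ThinFamilies

set_option autoImplicit false

/-!
# `ψ(x; m, a) - x / φ(m)` on average over the residues `a = F_k(k t + ρ_k)`: ARBITRARY polynomials and ARBITRARY classes
modulo almost all large `k`

Montgomery's conjecture bounds the error `E(x; m, a) = ψ(x; m, a) - x / φ(m)` for all single moduli `m` and residues `a`.
Here the errors are averaged over the following thin families of residues `a` up to `B N`, for all the moduli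
`m ≤ N / exp (K (log log N) ^ 2)` at once, with absolute values outside of the average over the family.

Let `k` run through a set of at least `Q / log ^ C X` integers up to `Q`, `Q` and `X` of polynomially comparable size; for
every `k` let a polynomial `F_k` of degree `d ≥ 2` with the leading coefficient `κ` and an integer `ρ_k` be given in an
ARBITRARY way (they depend on `k`, as if chosen by an adversary); the family consists of the numbers `F_k(k t + ρ_k)`,
`1 ≤ t ≤ X`, that is, of the values of `F_k` at the elements of a residue class modulo `k`, of size up to `N = (Q X) ^ d`.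
For example `a = (k t + ρ_k) ^ d`. The number of the residues is at most `Q X = N ^ (1 / d)`.

Proof. The additive energy of these families is nearly minimal (`Pool.Agent.Run7.h536.CE1` to `CE4` and `CE12.ap_energy`,
new): a Weyl inequality bounds the exponential sum over `t` in terms of the distances of the multiples of the leading
coefficient `κ k ^ d` from the rationals, uniformly in the other coefficients, and the moments of these bounds over `k`
are estimated. The level of distribution along families of nearly minimal energy is from the starting files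
(`Results.MP_a78e8f_nt.ThinFamilies`, whose definitions are used: `E x q a` is `ψ(x; q, a) - x / φ(q)`; `level K N` is
`N / exp (K (log log N) ^ 2)`; `τ` is the divisor function).
-/

namespace Pool.Agent.Results.MP_9cfc0a_nt.AveragesInAllClasses

open Finset Polynomial
open Pool.Agent.Results.MP_a78e8f_nt.ThinFamilies (energy level τ E Level level_of)

/-- The residue `F_k(k t + ρ_k)`, for `k ∈ T` and `1 ≤ t ≤ X`. -/
noncomputable def residue {T : Finset ℕ} (X : ℕ) (F : {k : ℕ // k ∈ T} → ℤ[X]) (ρ : {k : ℕ // k ∈ T} → ℤ)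
    (x : {k : ℕ // k ∈ T} × {t : ℕ // t ∈ (Icc 1 X : Finset ℕ)}) : ℤ :=
  (F x.1).eval (((x.1.1 : ℕ) : ℤ) * ((x.2.1 : ℕ) : ℤ) + ρ x.1)

open Classical in
/-- Fix `d ≥ 2` and `r`, `B`, `C`, `V`, `U`. There is a `K` such that for all large `X`: let `Q ≤ X ^ r`, `X ≤ Q ^ r`, let `T`
be ANY set of at least `Q / log ^ C X` positive integers up to `Q`, `κ ≠ 0`, `N = (Q X) ^ d`, let `F_k`, `k ∈ T`, be
ARBITRARY polynomials with integer coefficients of degree at most `d` with the coefficient `κ` at `x ^ d`, and `ρ_k`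
ARBITRARY integers, such that `|F_k(k t + ρ_k)| ≤ B N` for `1 ≤ t ≤ X`. Then for the residues `a = F_k(k t + ρ_k)`:

(1) for all coefficients `|c(k, t)| ≤ log ^ V N` and all functions `x(m) ≤ B N`, the sum over ALL the moduli
`m ≤ N / exp (K (log log N) ^ 2)` of `τ(m) ^ V` times the ABSOLUTE VALUE of the sum of
`c(k, t) (ψ(x(m); m, a) - x(m) / φ(m))` over the `(k, t)` with `a > 0` coprime to `m` is at most `#T X N / log ^ U N`;

(2) for every function `λ` on the moduli with `|λ(m)| ≤ (τ(m) log N) ^ V`, for all but at most `#T X / log ^ U N` of the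
`(k, t)` with `a > 0`, the sum of `λ(m) (ψ(x; m, a) - x / φ(m))` over the `m ≤ M` coprime to `a` is at most
`N / log ^ U N` in absolute value for ALL `M ≤ N / exp (K (log log N) ^ 2)` and ALL `x ≤ B N`;

(3) for almost all `k ∈ T` all residue classes and polynomials are good: for every function `λ` as in (2), for all but at
most `#T / log ^ U X` of the `k ∈ T`, for ALL polynomials `F` of degree at most `d` with the coefficient `κ` at `x ^ d` and
ALL integers `ρ` with `|F(k t + ρ)| ≤ B N` for `1 ≤ t ≤ X`, for all but at most `X / log ^ U X` of the `t` for which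
`a = F(k t + ρ) > 0` the sum of `λ(m) (ψ(x; m, a) - x / φ(m))` over the `m ≤ M` coprime to `a` is at most
`N / log ^ U N` in absolute value for ALL `M ≤ N / exp (K (log log N) ^ 2)` and ALL `x ≤ B N`. -/
theorem result (d : ℕ) (hd : 2 ≤ d) (r B C V U : ℕ) (hr : 1 ≤ r) :
    ∃ K x₀ : ℕ, ∀ X : ℕ, x₀ ≤ X → ∀ Q : ℕ, Q ≤ X ^ r → X ≤ Q ^ r →
    ∀ T : Finset ℕ, T ⊆ Icc 1 Q → (Q : ℝ) ≤ Real.log X ^ C * T.card → ∀ κ : ℤ, κ ≠ 0 →
    ∀ N : ℕ, N = (Q * X) ^ d →
    (∀ (F : {k : ℕ // k ∈ T} → ℤ[X]) (ρ : {k : ℕ // k ∈ T} → ℤ), (∀ k, (F k).natDegree ≤ d) → (∀ k, (F k).coeff d = κ) →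
      (∀ x, |residue X F ρ x| ≤ B * N) →
      (∀ c : {k : ℕ // k ∈ T} × {t : ℕ // t ∈ (Icc 1 X : Finset ℕ)} → ℝ, (∀ i, |c i| ≤ Real.log N ^ V) →
        ∀ x : ℕ → ℕ, (∀ m, x m ≤ B * N) →
        ∑ m ∈ Icc 1 ⌊level K N⌋₊, τ m ^ V * |∑ i ∈ univ.filter (fun i => 0 < residue X F ρ i ∧ Int.gcd (residue X F ρ i) m = 1),
          c i * E (x m) m (residue X F ρ i)| ≤ T.card * X * N / Real.log N ^ U) ∧
      (∀ lam : ℕ → ℝ, (∀ m, |lam m| ≤ (τ m * Real.log N) ^ V) →
        ((univ.filter (fun i => 0 < residue X F ρ i ∧ ∃ M : ℕ, (M : ℝ) ≤ level K N ∧ ∃ x : ℕ, x ≤ B * N ∧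
          N / Real.log N ^ U < |∑ m ∈ (Icc 1 M).filter (fun m : ℕ => Int.gcd (residue X F ρ i) m = 1),
            lam m * E x m (residue X F ρ i)|)).card : ℝ) ≤ T.card * X / Real.log N ^ U)) ∧
    (∀ lam : ℕ → ℝ, (∀ m, |lam m| ≤ (τ m * Real.log N) ^ V) →
      ((T.filter (fun k : ℕ => ∃ F : ℤ[X], ∃ ρ : ℤ, F.natDegree ≤ d ∧ F.coeff d = κ ∧
        (∀ t ∈ Icc 1 X, |F.eval (k * (t : ℤ) + ρ)| ≤ B * N) ∧
        (X : ℝ) / Real.log X ^ U <
          (((Icc 1 X).filter (fun t : ℕ => 0 < F.eval (k * (t : ℤ) + ρ) ∧ ∃ M : ℕ, (M : ℝ) ≤ level K N ∧ ∃ x : ℕ, x ≤ B * N ∧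
          N / Real.log N ^ U < |∑ m ∈ (Icc 1 M).filter (fun m : ℕ => Int.gcd (F.eval (k * (t : ℤ) + ρ)) m = 1),
            lam m * E x m (F.eval (k * (t : ℤ) + ρ))|)).card : ℝ))).card : ℝ) ≤
        T.card / Real.log X ^ U) := by
  obtain ⟨p, C', x1, hp, hen⟩ := Pool.Agent.Run7.h536.CE.ap_energy d hd r C hr
  obtain ⟨K1, N1, hlev⟩ := level_of p B B C' V U le_rfl
  obtain ⟨K2, x2, hw⟩ := Pool.Agent.Run7.h536.CE.wrap_ap d hd r C U hr (ULift (ℕ → ℝ)) (fun N z => |z| ≤ B * N)
    (fun K lam N z => (∀ m, |lam.down m| ≤ (τ m * Real.log N) ^ V) ∧ 0 < z ∧ ∃ M : ℕ, (M : ℝ) ≤ level K N ∧ ∃ x : ℕ, x ≤ B * N ∧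
          N / Real.log N ^ U < |∑ m ∈ (Icc 1 M).filter (fun m : ℕ => Int.gcd z m = 1), lam.down m * E x m z|)
    (fun p C _ => by
      obtain ⟨K, N₀, h⟩ := level_of p B B C V (U + U) le_rfl
      obtain ⟨n1, hn1⟩ := Pool.Agent.H373R2.T7.ev_L' 1
      refine ⟨K, N₀ + n1, fun N hN lam ι _ v hv hE S hS => ?_⟩
      rcases S.eq_empty_or_nonempty with hS0 | ⟨i₀, hi₀⟩
      · rw [hS0, card_empty, Nat.cast_zero]
        have := Real.log_natCast_nonneg N
        positivity
      have h1 := ((h N (by omega) ι v hv hE).1 lam.down (hS i₀ hi₀).1).1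
      refine le_trans (Nat.cast_le.2 (card_le_card ?_)) h1
      intro i hi
      obtain ⟨_, h2, M, h3, x, h4, h5⟩ := hS i hi
      rw [mem_filter]
      refine ⟨mem_univ _, h2, M, h3, x, h4, lt_of_le_of_lt ?_ h5⟩
      apply div_le_div_of_nonneg_left (Nat.cast_nonneg _)
      · have := hn1 N (by omega)
        positivity
      · exact pow_le_pow_right₀ (hn1 N (by omega)) (by omega))
  refine ⟨max K1 K2, x1 + N1 + x2 + 1, fun X hX Q hQ1 hQ2 T hT hTQ κ hκ N hN => ?_⟩
  have hQpos : 1 ≤ Q := by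
    rcases Nat.eq_zero_or_pos Q with h0 | h0
    · rw [h0, zero_pow (by omega)] at hQ2
      omega
    · exact h0
  have hXN : X ≤ N := by
    rw [hN]
    calc X = 1 * X := (one_mul _).symm
      _ ≤ Q * X := Nat.mul_le_mul_right _ hQpos
      _ ≤ _ := Nat.le_self_pow (by omega) _
  have hK1 : level (max K1 K2) N ≤ level K1 N := Pool.Agent.TH212.EH.level_anti K1 _ N (le_max_left _ _)
  have hK2 : level (max K1 K2) N ≤ level K2 N := Pool.Agent.TH212.EH.level_anti K2 _ N (le_max_right _ _)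
  constructor
  · intro F ρ hF1 hF2 hF3
    have h1 := hen X (by omega) Q hQ1 hQ2 T hT hTQ κ hκ F ρ hF1 hF2
    rw [← hN] at h1
    have hcard : (Fintype.card ({k : ℕ // k ∈ T} × {t : ℕ // t ∈ (Icc 1 X : Finset ℕ)}) : ℝ) = T.card * X := by
      rw [Fintype.card_prod, Fintype.card_coe, Fintype.card_coe, Nat.card_Icc]
      push_cast
      ring
    obtain ⟨h2, h3⟩ := hlev N (by omega) _ (residue X F ρ) hF3 h1
    rw [hcard] at h2 h3
    constructor
    · intro c hc x hx
      refine le_trans ?_ (h3 c hc x hx)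
      apply sum_le_sum_of_subset_of_nonneg
      · exact Icc_subset_Icc le_rfl (Nat.floor_le_floor hK1)
      · intro m _ _
        have : 0 ≤ τ m := Nat.cast_nonneg _
        positivity
    · intro lam hlam
      refine le_trans (Nat.cast_le.2 (card_le_card ?_)) (h2 lam hlam).1
      intro i hi
      rw [mem_filter] at hi ⊢
      obtain ⟨_, h4, M, h5, h6⟩ := hi
      exact ⟨mem_univ _, h4, M, h5.trans hK1, h6⟩
  · intro lam hlam
    have h1 := hw X (by omega) Q hQ1 hQ2 T hT hTQ κ hκ ⟨lam⟩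
    rw [← hN] at h1
    refine le_trans (Nat.cast_le.2 (card_le_card ?_)) h1
    intro k hk
    rw [mem_filter] at hk ⊢
    obtain ⟨hkT, F, ρ, hF1, hF2, hF3, hF4⟩ := hk
    refine ⟨hkT, F, ρ, hF1, hF2, hF3, lt_of_lt_of_le hF4 (Nat.cast_le.2 (card_le_card ?_))⟩
    intro t ht
    obtain ⟨ht1, ht2, M, ht3, ht4⟩ := mem_filter.1 ht
    simp only [Finset.mem_filter]
    exact ⟨ht1, hlam, ht2, M, ht3.trans hK2, ht4⟩

end Pool.Agent.Results.MP_9cfc0a_nt.AveragesInAllClasses
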