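import Mathlib
import Pool.Agent.Run7.h337.MC.Burg

/-!
# Primes in the translates of flat families of residue classes, for every modulus and every interval
-/

set_option autoImplicit false

namespace Pool.Agent.Results.MP_9cfc0a_nt.FlatClasses

open Finset
open Run7.h337.MC (MulFlat classSum expected badCount badDilates)

theorem result :
    (∀ δ : ℝ, 0 < δ → δ < 1 → ∃ H₀ : ℝ, ∀ (x h : ℝ) (q : ℕ) [NeZero q], H₀ ≤ h → (q : ℝ) ≤ h ^ (1 - δ) →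
      (∀ {ι : Type} (s : Finset ι) (y : ι → (ZMod q)ˣ) (η : ℝ), s.Nonempty → 0 ≤ η → MulFlat q η s y →
        (∑ m : (ZMod q)ˣ, (classSum x h s y m - expected x h q s.card) ^ 2 ≤
          9 * η ^ 2 * s.card ^ 2 * h ^ 2 / (δ * Nat.totient q * Real.log h ^ 2)) ∧
        (∀ ε : ℝ, 0 < ε → (badCount x h s y (ε * (s.card * h / (Nat.totient q * Real.log h))) : ℝ) ≤
          9 * η ^ 2 / (δ * ε ^ 2) * Nat.totient q) ∧
        (∀ Z : Finset (ZMod q)ˣ, |∑ m ∈ Z, classSum x h s y m - Z.card * expected x h q s.card| ≤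
          3 * η * (s.card * h / Real.log h) * Real.sqrt (Z.card / (δ * Nat.totient q))) ∧
        (x = h → ∀ ε : ℝ, 0 < ε → (badCount x h s y (ε * expected x h q s.card) : ℝ) ≤
          81 * η ^ 2 / (δ * ε ^ 2) * Nat.totient q) ∧
        (η ≤ h ^ δ * (q / h) ^ (1 / 2 : ℝ) →
          (badCount x h s y (s.card * (h ^ (1 / 2 + 3 * δ) / (q : ℝ) ^ (1 / 2 : ℝ))) : ℝ) ≤ Nat.totient q / h ^ δ)) ∧
      ∀ (η : ℝ) (k : ℕ), 0 < η → 4 * Real.log (4 * Nat.totient q) ≤ η ^ 2 * k →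
        ∃ y : Fin k → (ZMod q)ˣ, MulFlat q η univ y) ∧
    (∀ δ e : ℝ, 0 < δ → δ < 1 → 0 < e → ∃ c : ℝ, 0 < c ∧ ∃ q₀ : ℕ, ∀ q : ℕ, q₀ ≤ q →
      q.Prime → ∀ [NeZero q] (x h : ℝ), 0 ≤ h → (q : ℝ) ≤ h ^ (1 - δ) → ∀ (a d : ZMod q) (L : ℕ), d ≠ 0 →
      (q : ℝ) ^ (1 / 4 + e) ≤ L → L ≤ q →
      (badDilates x h q a d L (L * h / ((q : ℝ) ^ (1 + c) * Real.log h)) : ℝ) ≤ (q : ℝ) ^ (1 - c)) :=
  ⟨fun δ hδ hδ1 => Run7.h337.MC.main δ hδ hδ1, fun δ e hδ hδ1 he => Run7.h337.MC.ap_primes δ e hδ hδ1 he⟩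

end Pool.Agent.Results.MP_9cfc0a_nt.FlatClasses
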