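import Mathlib
import Pool.Agent.Run7.h129.MC.Bad
import Pool.Agent.Run7.h129.BU.TU

/-!
# Primes in the classes modulo the primes of the form `⌊β m ^ κ⌋`: the mean square over the classes

For a prime `q` consider the mean square over the classes `a` modulo `q` of the largest value of
`|π(y; q, a) - π(y) / (q - 1)|`, `y ≤ x`. Montgomery's conjecture predicts the bound `x ^ (1 + ε) / q` for it. We show:
for every `κ ≥ 1` there is a set `E κ` of real numbers, of Hausdorff dimension less than one, such that for ALL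
`β > 0` outside of `E κ` the bound `36 x ^ (1 + ε) / q * (1 + x / q ^ 2)` holds for all `x ≥ 1`, for all primes
`q = ⌊β m ^ κ⌋` but few: the number of the exceptional `m ≤ M` is `O(M ^ (1 - c))`, `c > 0` depending on `κ` and `ε`
only, whereas at least `M ^ (1 - δ)` of the numbers `⌊β m ^ κ⌋`, `m ≤ M`, are primes, for every `δ > 0`. In
particular for `q ≤ x ≤ q ^ 2` Montgomery's bound `x ^ (1 / 2 + ε) / q ^ (1 / 2)` holds for all `y ≤ x` at once, for all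
but at most `q / x ^ ε` of the classes, up to constants.

The law for arbitrary sets of integers along `⌊β m ^ κ⌋` is `Pool.Agent.Run7.h129.BU.main_U`. The set of the
exceptional primes is treated by the large sieve (starting file `Pool.Agent.Helper112.LS`) for all dyadic intervals.
-/

set_option autoImplicit false

open Filter MeasureTheory

namespace Pool.Agent.Results.MP_9cfc0a_nt.MeanSquareSparseModuli

/-- `π(y; q, a)`: the number of the primes `p ≤ y` with `p % q = a`. -/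
def primesInClass (y q a : ℕ) : ℕ := ((Finset.Icc 1 y).filter (fun p => p.Prime ∧ p % q = a)).card

/-- For all `x ≥ 1` and all lengths `y a ≤ x` (which may depend on the class `a`) the sum over the classes
`1 ≤ a ≤ q - 1` of `(π(y a; q, a) - π(y a) / (q - 1)) ^ 2` is at most `18 x ^ (1 + ε) (1 + x / q ^ 2)`. -/
def MeanSquareBound (ε : ℝ) (q : ℕ) : Prop :=
  ∀ x : ℕ, 1 ≤ x → ∀ y : ℕ → ℕ, (∀ a, y a ≤ x) →
    ∑ a ∈ Finset.Icc 1 (q - 1), ((primesInClass (y a) q a : ℝ) - Nat.primeCounting (y a) / ((q : ℝ) - 1)) ^ 2 ≤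
      18 * (x : ℝ) ^ (1 + ε) * (1 + x / (q : ℝ) ^ 2)

/-- The number of the `1 ≤ m ≤ M` for which `⌊β m ^ κ⌋` has the property `P`. -/
noncomputable def count (β κ : ℝ) (P : ℕ → Prop) (M : ℕ) : ℕ :=
  {m : ℕ | 1 ≤ m ∧ m ≤ M ∧ P ⌊β * (m : ℝ) ^ κ⌋₊}.ncard

open Pool.Agent.Run7.h129.MC Finset in
lemma bound_of_not_bad {ε : ℝ} (hε : 0 < ε) {q : ℕ} (hq : q.Prime) (h : ¬ Bad ε q) : MeanSquareBound ε q := by
  intro x hx y hy
  have hq2 : (2 : ℝ) ≤ q := by exact_mod_cast hq.two_le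
  have hq0 : (0 : ℝ) < q := by linarith
  have hx1 : (1 : ℝ) ≤ x := by exact_mod_cast hx
  have h1 : ∑ a ∈ range q, (Dd pr q a (y a)) ^ 2 ≤ 8 * (x : ℝ) ^ (1 + ε) * (1 + x / (q : ℝ) ^ 2) := by
    by_contra hcon
    push Not at hcon
    exact h ⟨hq, x, hx, y, hy, hcon⟩
  have hpi : ∀ z : ℕ, (Nat.primeCounting z : ℝ) = ∑ n ∈ Ioc 0 z, pr n := by
    intro z
    unfold pr
    rw [← sum_filter, sum_const, nsmul_eq_mul, mul_one]
    congr 1
    rw [Nat.primeCounting, Nat.primeCounting', Nat.count_eq_card_filter_range]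
    congr 1
    ext n
    simp only [mem_filter, mem_range, mem_Ioc]
    constructor
    · rintro ⟨h1, h2⟩
      exact ⟨⟨h2.pos, by omega⟩, h2⟩
    · rintro ⟨⟨h1, h2⟩, h3⟩
      exact ⟨by omega, h3⟩
  have hcl : ∀ a : ℕ, (primesInClass (y a) q a : ℝ) = ∑ n ∈ Ioc 0 (y a), (if n % q = a then pr n else 0) := by
    intro a
    unfold primesInClass pr
    have e : ∀ n : ℕ, (if n % q = a then (if n.Prime then (1 : ℝ) else 0) else 0) =
        if n.Prime ∧ n % q = a then 1 else 0 := by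
      intro n
      by_cases h1 : n.Prime <;> by_cases h2 : n % q = a <;> simp [h1, h2]
    simp only [e]
    rw [← sum_filter, sum_const, nsmul_eq_mul, mul_one]
    rfl
  have h2 : ∀ a ∈ Icc 1 (q - 1), ((primesInClass (y a) q a : ℝ) - Nat.primeCounting (y a) / ((q : ℝ) - 1)) ^ 2 ≤
      2 * (Dd pr q a (y a)) ^ 2 + 2 * ((x : ℝ) / (q * (q - 1))) ^ 2 := by
    intro a _
    set S := ∑ n ∈ Ioc 0 (y a), pr n with hS
    have hS0 : 0 ≤ S := sum_pr_nonneg _
    have hSx : S ≤ x := (sum_pr_le _).trans (by exact_mod_cast hy a)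
    have e1 : (primesInClass (y a) q a : ℝ) - Nat.primeCounting (y a) / ((q : ℝ) - 1) =
        Dd pr q a (y a) - S / (q * (q - 1)) := by
      rw [hcl, hpi]
      unfold Dd
      rw [← hS]
      have : (q : ℝ) - 1 ≠ 0 := by linarith
      field_simp
      ring
    have e2 : (S / (q * (q - 1))) ^ 2 ≤ ((x : ℝ) / (q * (q - 1))) ^ 2 := by
      have hqq : 0 < (q : ℝ) * (q - 1) := mul_pos hq0 (by linarith)
      exact pow_le_pow_left₀ (div_nonneg hS0 hqq.le) (div_le_div_of_nonneg_right hSx hqq.le) 2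
    rw [e1]
    nlinarith [sq_nonneg (Dd pr q a (y a) + S / (q * (q - 1)))]
  have h3 : ∑ a ∈ Icc 1 (q - 1), 2 * (Dd pr q a (y a)) ^ 2 ≤ 2 * ∑ a ∈ range q, (Dd pr q a (y a)) ^ 2 := by
    rw [← mul_sum]
    refine mul_le_mul_of_nonneg_left (sum_le_sum_of_subset_of_nonneg ?_ fun _ _ _ => sq_nonneg _) (by norm_num)
    intro a ha
    rw [mem_Icc] at ha
    rw [mem_range]
    have := hq.two_le
    omega
  have h4 : ∑ a ∈ Icc 1 (q - 1), 2 * ((x : ℝ) / (q * (q - 1))) ^ 2 ≤ 2 * ((x : ℝ) ^ 2 / (q : ℝ) ^ 2) := by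
    rw [sum_const, Nat.card_Icc, nsmul_eq_mul]
    have e1 : ((q - 1 + 1 - 1 : ℕ) : ℝ) = (q : ℝ) - 1 := by
      rw [Nat.add_sub_cancel, Nat.cast_sub hq.one_le]; simp
    rw [e1]
    have e2 : ((q : ℝ) - 1) * (2 * ((x : ℝ) / (q * (q - 1))) ^ 2) = 2 * ((x : ℝ) ^ 2 / (q : ℝ) ^ 2) / (q - 1) := by
      have : (q : ℝ) - 1 ≠ 0 := by linarith
      field_simp
    rw [e2]
    exact div_le_self (by positivity) (by linarith)
  have h5 : (x : ℝ) ^ 2 / (q : ℝ) ^ 2 ≤ (x : ℝ) ^ (1 + ε) * (1 + x / (q : ℝ) ^ 2) := by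
    have e1 : (x : ℝ) ≤ (x : ℝ) ^ (1 + ε) := by
      conv_lhs => rw [← Real.rpow_one (x : ℝ)]
      exact Real.rpow_le_rpow_of_exponent_le hx1 (by linarith)
    calc (x : ℝ) ^ 2 / (q : ℝ) ^ 2 = x * (x / (q : ℝ) ^ 2) := by ring
      _ ≤ (x : ℝ) ^ (1 + ε) * (1 + x / (q : ℝ) ^ 2) :=
          mul_le_mul e1 (by linarith) (by positivity) (by positivity)
  have h6 := sum_le_sum h2
  rw [sum_add_distrib] at h6
  linarith

open Pool.Agent.Run7.h129.MC in
lemma bad_mono {ε ε' : ℝ} (h : ε' ≤ ε) {q : ℕ} (hb : Bad ε q) : Bad ε' q := by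
  obtain ⟨hq, x, hx, y, hy, hlt⟩ := hb
  refine ⟨hq, x, hx, y, hy, lt_of_le_of_lt ?_ hlt⟩
  have hx1 : (1 : ℝ) ≤ x := by exact_mod_cast hx
  have e1 : (x : ℝ) ^ (1 + ε') ≤ (x : ℝ) ^ (1 + ε) := Real.rpow_le_rpow_of_exponent_le hx1 (by linarith)
  gcongr

lemma primes_many (ε : ℝ) (hε : 0 < ε) :
    ∀ᶠ x : ℝ in atTop, x ^ (1 - ε) ≤ ({n : ℕ | 1 ≤ n ∧ (n : ℝ) ≤ x ∧ n ∈ {p : ℕ | p.Prime}}.ncard : ℝ) := by
  have h1 : ∀ᶠ x : ℝ in atTop, 10 * Real.log x ≤ x ^ ε := by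
    have := (isLittleO_log_rpow_atTop hε).bound (by norm_num : (0 : ℝ) < 1 / 10)
    filter_upwards [this, eventually_ge_atTop 1] with x hx hx1
    rw [Real.norm_of_nonneg (Real.log_nonneg hx1), Real.norm_of_nonneg (by positivity)] at hx
    linarith
  filter_upwards [h1, eventually_ge_atTop 100] with x hx hx100
  have hx0 : 0 < x := by linarith
  have hl : 0 < Real.log x := Real.log_pos (by linarith)
  have hpi := Chebyshev.pi_ge' (x := x) (by linarith)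
  have hcard : (Nat.primeCounting ⌊x⌋₊ : ℝ) = ({n : ℕ | 1 ≤ n ∧ (n : ℝ) ≤ x ∧ n ∈ {p : ℕ | p.Prime}}.ncard : ℝ) := by
    rw [Nat.primeCounting, Nat.primeCounting', Nat.count_eq_card_filter_range, ← Set.ncard_coe_finset]
    congr 2
    ext n
    simp only [Finset.coe_filter, Finset.mem_range, Set.mem_ofPred_eq]
    constructor
    · rintro ⟨h1, h2⟩
      exact ⟨h2.one_le, (Nat.le_floor_iff hx0.le).1 (by omega), h2⟩
    · rintro ⟨h1, h2, h3⟩
      exact ⟨by have := Nat.le_floor h2; omega, h3⟩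
  change x ^ (1 - ε) ≤ ({n : ℕ | 1 ≤ n ∧ (n : ℝ) ≤ x ∧ n ∈ {p : ℕ | p.Prime}}.ncard : ℝ)
  rw [← hcard]
  refine le_trans ?_ hpi
  rw [le_div_iff₀ hl]
  have hl2 : (1 / 2 : ℝ) < Real.log 2 := by have := Real.log_two_gt_d9; linarith
  have e1 : Real.log (x + 2) ≤ x / 10 := by
    have h8 : Real.log (x + 2) ≤ 4 * Real.sqrt (Real.sqrt (x + 2)) - 4 := by
      have h6 := Real.log_le_sub_one_of_pos (Real.sqrt_pos.2 (Real.sqrt_pos.2 (by linarith : 0 < x + 2)))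
      rw [Real.log_sqrt (Real.sqrt_nonneg _), Real.log_sqrt (by linarith)] at h6
      linarith
    have h5 : x + 2 ≤ (9 / 80 * x + 1) ^ 2 := by nlinarith
    have h7 : 9 / 80 * x + 1 ≤ (x / 40 + 1) ^ 2 := by nlinarith
    have h9 : Real.sqrt (Real.sqrt (x + 2)) ≤ x / 40 + 1 := by
      rw [Real.sqrt_le_left (by linarith)]
      exact ((Real.sqrt_le_left (by linarith)).2 h5).trans h7
    linarith
  have e2 : x ^ (1 - ε) * x ^ ε = x := by rw [← Real.rpow_add hx0]; simp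
  have e3 : x ^ (1 - ε) * Real.log x ≤ x / 10 := by
    have : x ^ (1 - ε) * (10 * Real.log x) ≤ x ^ (1 - ε) * x ^ ε := mul_le_mul_of_nonneg_left hx (by positivity)
    linarith
  nlinarith

/-- There are sets `E κ` of real numbers, of Hausdorff dimension less than one for all `κ ≥ 1`, such that for all
`κ ≥ 1` and all real `β > 0` not in `E κ`: for every `δ > 0` and all large `M` at least `M ^ (1 - δ)` of the numbers
`⌊β m ^ κ⌋`, `m ≤ M`, are primes; and for every `ε > 0` the number of the `m ≤ M` for which `q = ⌊β m ^ κ⌋` is a prime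
without `MeanSquareBound ε q` is at most `C M ^ (1 - c)` for all `M ≥ 1`, where `c > 0` depends on `κ` and `ε`
only. -/
theorem result : ∃ E : ℝ → Set ℝ, (∀ κ : ℝ, 1 ≤ κ → dimH (E κ) < 1) ∧ ∀ κ : ℝ, 1 ≤ κ →
    (∀ β : ℝ, 0 < β → β ∉ E κ → ∀ δ : ℝ, 0 < δ → ∀ᶠ M : ℕ in atTop,
      (M : ℝ) ^ (1 - δ) ≤ (count β κ Nat.Prime M : ℝ)) ∧
    ∀ ε : ℝ, 0 < ε → ∃ c : ℝ, 0 < c ∧ ∀ β : ℝ, 0 < β → β ∉ E κ → ∃ C : ℝ, ∀ M : ℕ, 1 ≤ M →
      (count β κ (fun q => q.Prime ∧ ¬ MeanSquareBound ε q) M : ℝ) ≤ C * (M : ℝ) ^ (1 - c) := by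
  have key : ∀ κ : ℝ, ∃ E : Set ℝ, 1 ≤ κ → (dimH E < 1 ∧
      (∀ β : ℝ, 0 < β → β ∉ E → ∀ δ : ℝ, 0 < δ → ∀ᶠ M : ℕ in atTop,
        (M : ℝ) ^ (1 - δ) ≤ (count β κ Nat.Prime M : ℝ)) ∧
      ∀ ε : ℝ, 0 < ε → ∃ c : ℝ, 0 < c ∧ ∀ β : ℝ, 0 < β → β ∉ E → ∃ C : ℝ, ∀ M : ℕ, 1 ≤ M →
        (count β κ (fun q => q.Prime ∧ ¬ MeanSquareBound ε q) M : ℝ) ≤ C * (M : ℝ) ^ (1 - c)) := by
    intro κ
    by_cases hκ : 1 ≤ κ
    · obtain ⟨c, D, hc, hc1, hD0, hD, h⟩ := Pool.Agent.Run7.h129.BU.main_U (by linarith : 0 < κ)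
      obtain ⟨E₀, hE₀, hE₀β⟩ := h {p : ℕ | p.Prime}
      choose E₁ hE₁ hE₁β using fun k : ℕ => h {q : ℕ | Pool.Agent.Run7.h129.MC.Bad (1 / ((k : ℝ) + 1)) q}
      refine ⟨E₀ ∪ ⋃ k, E₁ k, fun _ => ⟨?_, fun β hβ hβE δ hδ => ?_, fun ε hε => ?_⟩⟩
      · refine lt_of_le_of_lt (b := ENNReal.ofReal D) ?_ ?_
        · rw [dimH_union, dimH_iUnion]
          exact max_le hE₀ (iSup_le hE₁)
        · rw [← ENNReal.ofReal_one]
          exact (ENNReal.ofReal_lt_ofReal_iff one_pos).2 hD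
      · exact Pool.Agent.Run7.h129.BU.tr_pow hβ hκ hc hc1 (hE₀β β hβ fun hcon => hβE (Or.inl hcon))
          primes_many hδ
      · obtain ⟨k, hk⟩ := exists_nat_one_div_lt hε
        have hk0 : (0 : ℝ) < 1 / ((k : ℝ) + 1) := by positivity
        have hk1 : 1 / ((k : ℝ) + 1) ≤ 1 := by
          rw [div_le_one (by positivity)]
          linarith [(Nat.cast_nonneg k : (0 : ℝ) ≤ k)]
        obtain ⟨C₀, hC₀, hcard⟩ := Pool.Agent.Run7.h129.MC.bad_card hk0 hk1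
        set ε' := 1 / ((k : ℝ) + 1) with hε'
        refine ⟨min c (ε' / 4 / 2), lt_min hc (by positivity), fun β hβ hβE => ?_⟩
        obtain ⟨C, hC, h3⟩ := Pool.Agent.Run7.h129.BU.tu_pow (δ := ε' / 4) (C₀ := C₀) hβ hκ hc (by positivity)
          (by linarith) (hE₁β k β hβ fun hcon => hβE (Or.inr (Set.mem_iUnion.2 ⟨k, hcon⟩))) (by
            intro n hn
            refine le_trans ?_ (hcard n hn)
            rw [Nat.cast_le]
            refine Set.ncard_le_ncard ?_ ((Set.finite_Iic n).subset fun q hq => hq.1)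
            rintro q ⟨h1, h2⟩
            exact ⟨h1.le, h2⟩)
        refine ⟨C, fun M hM => le_trans ?_ (h3 M hM)⟩
        rw [Nat.cast_le]
        refine Set.ncard_le_ncard ?_ ((Set.finite_Iic M).subset fun m hm => hm.2.1)
        rintro m ⟨h1, h2, h3, h4⟩
        refine ⟨h1, h2, ?_⟩
        by_contra hcon
        refine h4 (bound_of_not_bad hε h3 fun hb => hcon (bad_mono hk.le hb))
    · exact ⟨∅, fun h => absurd h hκ⟩
  choose E hE using key
  exact ⟨E, fun κ hκ => (hE κ hκ).1, fun κ hκ => (hE κ hκ).2⟩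

end Pool.Agent.Results.MP_9cfc0a_nt.MeanSquareSparseModuli
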