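import Mathlib
import Pool.Agent.Y882.EHF
import Pool.Agent.Run7.h129.MC.BV2
import Pool.Agent.Run7.h129.BU.TU

/-!
# Primes in ALL classes modulo the numbers `⌊β m ^ κ⌋`

For every `κ ≥ 1` there is a set `E κ` of real numbers, of Hausdorff dimension less than one, such that for ALL
`β > 0` outside of `E κ` and all `U`, `V` there are `B`, `C` with the following property. For all but at most
`C M / (log M) ^ V` of the `m ≤ M` the modulus `q = ⌊β m ^ κ⌋` satisfies
`|π(x; q, a) - π(x) / φ(q)| ≤ x / (φ(q) (log x) ^ U)` for ALL classes `a` prime to `q` and ALL `x ≥ q ^ 2 (log q) ^ B`.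

This is the theorem of Bombieri and Vinogradov along arbitrarily sparse sequences of moduli, at its full level
`q ≤ x ^ (1 / 2) / (log x) ^ B`.

The law for arbitrary sets of integers along `⌊β m ^ κ⌋` is `Pool.Agent.Run7.h129.BU.main_U`; the theorem of Bombieri and
Vinogradov is taken from the starting file `Pool.Agent.Y882.EHF` (a family with one member).
-/

set_option autoImplicit false

open Filter MeasureTheory

namespace Pool.Agent.Results.MP_9cfc0a_nt.SparseModuli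

/-- `π(x; q, a)`: the number of the primes `p ≤ x` with `p ≡ a (mod q)`. -/
def primesInClass (x q a : ℕ) : ℕ := ((Finset.Icc 1 x).filter (fun p : ℕ => p.Prime ∧ p ≡ a [MOD q])).card

/-- For all `x ≥ q ^ 2 (log q) ^ B` and all `a` prime to `q` we have
`|π(x; q, a) - π(x) / φ(q)| ≤ x / (φ(q) (log x) ^ U)`. -/
def AllClasses (U B q : ℕ) : Prop :=
  ∀ x : ℕ, (q : ℝ) ^ 2 * Real.log q ^ B ≤ x → ∀ a : ℕ, a.Coprime q →
    |(primesInClass x q a : ℝ) - (Nat.primeCounting x : ℝ) / (Nat.totient q : ℝ)| ≤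
      x / (Nat.totient q * Real.log x ^ U)

/-- The number of the `1 ≤ m ≤ M` for which `⌊β m ^ κ⌋` has the property `P`. -/
noncomputable def count (β κ : ℝ) (P : ℕ → Prop) (M : ℕ) : ℕ :=
  {m : ℕ | 1 ≤ m ∧ m ≤ M ∧ P ⌊β * (m : ℝ) ^ κ⌋₊}.ncard

open Pool.Agent.Run7.h129.MC Finset in
lemma pi_eq (x : ℕ) : (piA x : ℝ) = (Nat.primeCounting x : ℝ) := by
  unfold piA
  rw [Nat.primeCounting, Nat.primeCounting', Nat.count_eq_card_filter_range]
  congr 2
  ext n
  simp only [mem_filter, mem_range, mem_Icc]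
  constructor
  · rintro ⟨h1, h2⟩
    exact ⟨by omega, h2⟩
  · rintro ⟨h1, h2⟩
    exact ⟨⟨h2.one_le, by omega⟩, h2⟩

open Pool.Agent.Run7.h129.MC in
lemma good_iff (U B q : ℕ) : AllClasses U B q ↔ GoodM U B q := by
  unfold AllClasses GoodM Er
  simp only [pi_eq]
  rfl

open Pool.Agent.Run7.h129.MC Finset in
/-- the theorem of Bombieri and Vinogradov -/
lemma bombieri_vinogradov : BVHyp := by
  intro U
  obtain ⟨B, N₀, h⟩ := Pool.Agent.Y882.EHF.few U
  refine ⟨B, N₀ + 3, fun N hN Q hQ c => ?_⟩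
  have hN0 : (0 : ℝ) < N := by exact_mod_cast (by omega : 0 < N)
  have hl : 1 ≤ Real.log N := by
    rw [Real.le_log_iff_exp_le hN0]
    have h3 : (3 : ℝ) ≤ N := by exact_mod_cast (by omega : 3 ≤ N)
    have := Real.exp_one_lt_d9
    linarith
  have hlB : (0 : ℝ) < Real.log N ^ B := by positivity
  by_contra hcon
  push Not at hcon
  have hQ1 : (Q : ℝ) ≤ (Q : ℝ) ^ 2 := by
    rcases Nat.eq_zero_or_pos Q with h0 | h0
    · simp [h0]
    · have : (1 : ℝ) ≤ Q := by exact_mod_cast h0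
      nlinarith
  have h1 := h N (by omega) Q (by nlinarith) Unit {()} (fun _ => c) (by
    intro i _ j _ hij
    exact absurd (Subsingleton.elim i j) hij) (by
    intro i _
    exact hcon)
  simp only [card_singleton, Nat.cast_one] at h1
  rw [div_mul_eq_mul_div, le_div_iff₀ hN0, one_mul] at h1
  linarith

/-- There are sets `E κ` of real numbers, of Hausdorff dimension less than one for all `κ ≥ 1`, such that for all
`κ ≥ 1`, all real `β > 0` not in `E κ` and all `U`, `V` there are `B`, `C` with: for all `M ≥ 2`, all but at most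
`C M / (log M) ^ V` of the `m ≤ M` satisfy `AllClasses U B` at `q = ⌊β m ^ κ⌋`: the primes up to `x` are
equidistributed in all classes prime to `q`, up to the factor `1 + O(1 / (log x) ^ (U - 1))`, for all
`x ≥ q ^ 2 (log q) ^ B`. -/
theorem result : ∃ E : ℝ → Set ℝ, (∀ κ : ℝ, 1 ≤ κ → dimH (E κ) < 1) ∧ ∀ κ : ℝ, 1 ≤ κ →
    ∀ β : ℝ, 0 < β → β ∉ E κ → ∀ U V : ℕ, ∃ B : ℕ, ∃ C : ℝ, ∀ M : ℕ, 2 ≤ M →
      (count β κ (fun q => ¬ AllClasses U B q) M : ℝ) ≤ C * (M / Real.log M ^ V) := by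
  choose B C hC hB using fun t : ℕ × ℕ => Pool.Agent.Run7.h129.MC.bad_bv bombieri_vinogradov t.1 t.2
  have key : ∀ κ : ℝ, ∃ E : Set ℝ, 1 ≤ κ → (dimH E < 1 ∧
      ∀ β : ℝ, 0 < β → β ∉ E → ∀ U V : ℕ, ∃ B : ℕ, ∃ C : ℝ, ∀ M : ℕ, 2 ≤ M →
        (count β κ (fun q => ¬ AllClasses U B q) M : ℝ) ≤ C * (M / Real.log M ^ V)) := by
    intro κ
    by_cases hκ : 1 ≤ κ
    · obtain ⟨c, D, hc, hc1, hD0, hD, h⟩ := Pool.Agent.Run7.h129.BU.main_U (by linarith : 0 < κ)
      choose E hE hEβ using fun t : ℕ × ℕ => h {q : ℕ | ¬ Pool.Agent.Run7.h129.MC.GoodM t.1 (B t) q}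
      refine ⟨⋃ t, E t, fun _ => ⟨?_, fun β hβ hβE U V => ?_⟩⟩
      · refine lt_of_le_of_lt (b := ENNReal.ofReal D) ?_ ?_
        · rw [dimH_iUnion]
          exact iSup_le hE
        · rw [← ENNReal.ofReal_one]
          exact (ENNReal.ofReal_lt_ofReal_iff one_pos).2 hD
      · obtain ⟨C', -, h3⟩ := Pool.Agent.Run7.h129.BU.tu_log (C₀ := C (U, V)) V hβ hκ hc (by linarith)
          (hEβ (U, V) β hβ fun hcon => hβE (Set.mem_iUnion.2 ⟨_, hcon⟩)) (hC (U, V)).le (by
            intro n hn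
            exact hB (U, V) n hn)
        refine ⟨B (U, V), C', fun M hM => le_trans ?_ (h3 M hM)⟩
        rw [Nat.cast_le]
        refine Set.ncard_le_ncard ?_ ((Set.finite_Iic M).subset fun m hm => hm.2.1)
        rintro m ⟨h1, h2, h4⟩
        exact ⟨h1, h2, fun hcon => h4 ((good_iff U (B (U, V)) _).2 hcon)⟩
    · exact ⟨∅, fun h => absurd h hκ⟩
  choose E hE using key
  exact ⟨E, fun κ hκ => (hE κ hκ).1, fun κ hκ => (hE κ hκ).2⟩

end Pool.Agent.Results.MP_9cfc0a_nt.SparseModuli
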